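import Pool.Agent.helper12.TZ.Spec

set_option autoImplicit false

namespace Pool.Agent.TZ

open Pool.Agent.helper58.DC Pool.Agent.DI Pool.Agent.GR Pool.Agent.OB

lemma EQV_mem {G : Type} [Group G] (d : G) (H : Subgroup G) (x : G) : x ∈ cj d H ↔ d⁻¹ * x * d ∈ H := by
  unfold cj
  rw [Subgroup.mem_map]
  constructor
  · rintro ⟨y, hy, rfl⟩
    have : d⁻¹ * (MulAut.conj d).toMonoidHom y * d = y := by
      simp [mul_assoc]
    rw [this]
    exact hy
  · intro h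
    exact ⟨d⁻¹ * x * d, h, by simp [mul_assoc]⟩

lemma EQV_bi {G : Type} [Group G] (d s : G) (U : Subgroup G) :
    cj d U ⊔ Subgroup.zpowers (d * s * d⁻¹) = cj d (U ⊔ Subgroup.zpowers s) := by
  unfold cj
  rw [Subgroup.map_sup, MonoidHom.map_zpowers]
  rfl

lemma EQV_nx {G : Type} [Group G] (d s y : G) (H U : Subgroup G) :
    nx (d * s * d⁻¹) (d * y * d⁻¹) (cj d H) (cj d U) = cj d (nx s y H U) := by
  ext u
  rw [EQV_mem]
  constructor
  · rintro ⟨h1, h2, h3, h4⟩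
    rw [EQV_mem] at h1
    rw [EQV_bi, EQV_mem] at h4
    refine ⟨h1, ?_, ?_, ?_⟩
    · intro v hv
      have h5 := h2 (d * v * d⁻¹) (by rw [EQV_mem]; simpa [mul_assoc] using hv)
      calc d⁻¹ * u * d * v = d⁻¹ * (u * (d * v * d⁻¹)) * d := by group
        _ = d⁻¹ * ((d * v * d⁻¹) * u) * d := by rw [h5]
        _ = v * (d⁻¹ * u * d) := by group
    · calc d⁻¹ * u * d * s = d⁻¹ * (u * (d * s * d⁻¹)) * d := by group
        _ = d⁻¹ * ((d * s * d⁻¹) * u) * d := by rw [h3]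
        _ = s * (d⁻¹ * u * d) := by group
    · have e : y⁻¹ * (d⁻¹ * u * d) * y * (d⁻¹ * u * d)⁻¹ =
        d⁻¹ * ((d * y * d⁻¹)⁻¹ * u * (d * y * d⁻¹) * u⁻¹) * d := by group
      rw [e]
      exact h4
  · rintro ⟨h1, h2, h3, h4⟩
    refine ⟨?_, ?_, ?_, ?_⟩
    · rw [EQV_mem]
      exact h1
    · intro v hv
      rw [EQV_mem] at hv
      have h5 := h2 _ hv
      calc u * v = d * ((d⁻¹ * u * d) * (d⁻¹ * v * d)) * d⁻¹ := by group
        _ = d * ((d⁻¹ * v * d) * (d⁻¹ * u * d)) * d⁻¹ := by rw [h5]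
        _ = v * u := by group
    · calc u * (d * s * d⁻¹) = d * ((d⁻¹ * u * d) * s) * d⁻¹ := by group
        _ = d * (s * (d⁻¹ * u * d)) * d⁻¹ := by rw [h3]
        _ = (d * s * d⁻¹) * u := by group
    · rw [EQV_bi, EQV_mem]
      have e : y⁻¹ * (d⁻¹ * u * d) * y * (d⁻¹ * u * d)⁻¹ =
        d⁻¹ * ((d * y * d⁻¹)⁻¹ * u * (d * y * d⁻¹) * u⁻¹) * d := by group
      rw [← e]
      exact h4

lemma EQV_Ul {G : Type} [Group G] (d s y : G) (H : Subgroup G) (i : ℕ) :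
    Ul (d * s * d⁻¹) (d * y * d⁻¹) (cj d H) i = cj d (Ul s y H i) := by
  induction i with
  | zero =>
    show (⊥ : Subgroup G) = cj d ⊥
    unfold cj
    rw [Subgroup.map_bot]
  | succ i ih =>
    show nx _ _ _ (Ul (d * s * d⁻¹) (d * y * d⁻¹) (cj d H) i) = cj d (nx s y H (Ul s y H i))
    rw [ih, EQV_nx]

theorem EQV : EQV_stmt := by
  intro G _ d s y H
  have h1 : Ui (d * s * d⁻¹) (d * y * d⁻¹) (cj d H) = cj d (Ui s y H) := by
    unfold Ui
    simp only [EQV_Ul]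
    unfold cj
    rw [Subgroup.map_iSup]
  refine ⟨h1, ?_⟩
  unfold Bi
  rw [h1, EQV_bi]

end Pool.Agent.TZ
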